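import Mathlib
import Pool.Agent.Results.MP_a8995d_an.IdentityPlusShift

/-!
Linear systems with binomial coefficients, and powers of `1 + N` on the chains of a backward shift.
-/

set_option autoImplicit false

open Filter Topology

namespace Pool.Agent.R477.HH

open Pool.Agent.Results.MP_a8995d_an.IdentityPlusShift in
/-- The system `∑_r C(n, r + 1 + i) v_r(n) = t_i(n)`, `0 ≤ i ≤ m`. -/
theorem system (m : ℕ) (t : ℕ → ℕ → ℝ)
    (ht : ∀ i, i ≤ m → Tendsto (fun n : ℕ => t i n / (n : ℝ) ^ i) atTop (𝓝 0)) :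
    ∃ v : ℕ → ℕ → ℝ,
      (∀ r, r ≤ m → Tendsto (fun n : ℕ => (n : ℝ) ^ (r + 1) * v r n) atTop (𝓝 0)) ∧
      ∀ᶠ n : ℕ in atTop, ∀ i, i ≤ m →
        ∑ r ∈ Finset.range (m + 1), (n.choose (r + 1 + i) : ℝ) * v r n = t i n := by
  set b' : ℕ → Fin 1 × Fin (m + 1) → ℂ := fun n i => ((t i.2 n / (n : ℝ) ^ (i.2 : ℕ) : ℝ) : ℂ)
    with hb'
  have hb0 : Tendsto b' atTop (𝓝 0) := by
    rw [tendsto_pi_nhds]
    intro i
    have h1 := (Complex.continuous_ofReal.tendsto 0).comp (ht i.2 (Nat.lt_succ_iff.1 i.2.2))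
    rw [Complex.ofReal_zero] at h1
    exact h1
  set c : ℕ → Fin 1 × Fin (m + 1) → ℂ := fun n => ((Gk 1 m n)⁻¹).mulVec (b' n) with hc
  have hc0 : Tendsto c atTop (𝓝 0) := by
    have h1 := mulVec_tendsto (inv_tendsto (Gk_tendsto 1 m) (det_G 1 m)) hb0
    rwa [Matrix.mulVec_zero] at h1
  have hs : ∀ᶠ n in atTop, (Gk 1 m n).mulVec (c n) = b' n :=
    solve (Gk_tendsto 1 m) (det_G 1 m) b'
  have hcol : ∀ r : Fin (m + 1), col 1 m (0, r) = r + 1 := by
    intro r
    simp [col, finProdFinEquiv]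
  refine ⟨fun r n => if h : r < m + 1 then (c n (0, ⟨r, h⟩)).re / (n : ℝ) ^ (r + 1) else 0, ?_, ?_⟩
  · intro r hr
    have hr' : r < m + 1 := Nat.lt_succ_iff.2 hr
    simp only [hr', dif_pos]
    have h1 : Tendsto (fun n => (c n (0, ⟨r, hr'⟩)).re) atTop (𝓝 0) := by
      have := (Complex.continuous_re.tendsto 0).comp (tendsto_pi_nhds.1 hc0 (0, ⟨r, hr'⟩))
      rw [Complex.zero_re] at this
      exact this
    refine h1.congr' ?_
    filter_upwards [eventually_gt_atTop 0] with n hn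
    have : (n : ℝ) ≠ 0 := by exact_mod_cast hn.ne'
    field_simp
  · filter_upwards [hs, eventually_gt_atTop 0] with n hn hn0 i hi
    have hi' : i < m + 1 := Nat.lt_succ_iff.2 hi
    have hn1 : (n : ℝ) ≠ 0 := by exact_mod_cast hn0.ne'
    have h1 := congrFun hn (0, ⟨i, hi'⟩)
    simp only [Matrix.mulVec, dotProduct, Gk, hb'] at h1
    rw [Fintype.sum_prod_type] at h1
    simp only [Finset.univ_unique, Finset.sum_singleton, Fin.default_eq_zero, Fin.isValue, hcol,
      Fin.val_zero, zero_add, one_mul] at h1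
    have h2 := congrArg Complex.re h1
    rw [Complex.re_sum, Complex.ofReal_re] at h2
    have h3 : ∀ r : Fin (m + 1), (((n.choose ((r : ℕ) + 1 + i) : ℕ) : ℂ) /
        (n : ℂ) ^ ((r : ℕ) + 1 + i) * c n (0, r)).re =
        (n.choose ((r : ℕ) + 1 + i) : ℝ) / (n : ℝ) ^ ((r : ℕ) + 1 + i) * (c n (0, r)).re := by
      intro r
      rw [← Complex.re_ofReal_mul]
      push_cast
      rfl
    rw [Finset.sum_congr rfl fun r _ => h3 r] at h2
    rw [Finset.sum_range]
    have h4 : ∀ r : Fin (m + 1), (n.choose ((r : ℕ) + 1 + i) : ℝ) *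
        (if h : (r : ℕ) < m + 1 then (c n (0, ⟨r, h⟩)).re / (n : ℝ) ^ ((r : ℕ) + 1) else 0) =
        (n : ℝ) ^ i * ((n.choose ((r : ℕ) + 1 + i) : ℝ) / (n : ℝ) ^ ((r : ℕ) + 1 + i) *
          (c n (0, r)).re) := by
      intro r
      rw [dif_pos r.2, Fin.eta, pow_add (n : ℝ) ((r : ℕ) + 1) i]
      field_simp
    rw [Finset.sum_congr rfl fun r _ => h4 r, ← Finset.mul_sum, h2]
    field_simp

section chain

variable {𝕜 E : Type} [RCLike 𝕜] [AddCommGroup E] [Module 𝕜 E]

/-- Powers of `1 + N` on a chain of the backward shift `N`. -/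
theorem pow_chain (T : E →ₗ[𝕜] E) (β : ℕ → E) (h0 : T (β 0) = β 0)
    (h1 : ∀ j, T (β (j + 1)) = β (j + 1) + β j) (n j : ℕ) :
    (T ^ n) (β j) = ∑ q ∈ Finset.range (j + 1), (n.choose q : 𝕜) • β (j - q) := by
  induction n generalizing j with
  | zero =>
    rw [Finset.sum_range_succ']
    simp
  | succ n ih =>
    rw [pow_succ, Module.End.mul_apply]
    cases j with
    | zero =>
      rw [h0, ih]
      simp
    | succ j =>
      rw [h1, map_add, ih, ih]
      rw [Finset.sum_range_succ' (fun q => (((n + 1).choose q : ℕ) : 𝕜) • β (j + 1 - q)),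
        Finset.sum_range_succ' (fun q => ((n.choose q : ℕ) : 𝕜) • β (j + 1 - q))]
      simp only [Nat.choose_zero_right, Nat.cast_one, Nat.sub_zero]
      rw [add_right_comm]
      congr 1
      rw [← Finset.sum_add_distrib]
      refine Finset.sum_congr rfl fun q _ => ?_
      rw [Nat.choose_succ_succ, Nat.add_sub_add_right]
      push_cast
      rw [add_smul, add_comm]

end chain

end Pool.Agent.R477.HH
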