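import Mathlib

/-!
Every separable infinite-dimensional normed space has a biorthogonal system `(e_i, f_i)` such that
the span of the `e_i` is dense.
-/

set_option autoImplicit false

open Filter Topology

namespace Pool.Agent.R477.HH

section

variable (𝕜 : Type) {X : Type} [RCLike 𝕜] [NormedAddCommGroup X] [NormedSpace 𝕜 X]

open Classical in
/-- a functional with value `1` at `e` if `e ≠ 0` -/
noncomputable def dual1 (e : X) : X →L[𝕜] 𝕜 :=
  if h : e = 0 then 0 else ((‖e‖ : 𝕜)⁻¹) • (exists_dual_vector 𝕜 e (norm_ne_zero_iff.2 h)).choose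

lemma dual1_apply {e : X} (h : e ≠ 0) : dual1 𝕜 e e = 1 := by
  unfold dual1
  rw [dif_neg h, smul_apply,
    (exists_dual_vector 𝕜 e (norm_ne_zero_iff.2 h)).choose_spec.2, smul_eq_mul]
  exact inv_mul_cancel₀ (by simpa using h)

/-- the recursion of Gram-Schmidt type -/
noncomputable def gs (x : ℕ → X) (k : ℕ) : X × (X →L[𝕜] 𝕜) :=
  (x k - ∑ i : Fin k, (gs x i.1).2 (x k) • (gs x i.1).1,
    dual1 𝕜 (x k - ∑ i : Fin k, (gs x i.1).2 (x k) • (gs x i.1).1) -
      ∑ i : Fin k, dual1 𝕜 (x k - ∑ i : Fin k, (gs x i.1).2 (x k) • (gs x i.1).1) (gs x i.1).1 •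
        (gs x i.1).2)
termination_by k
decreasing_by all_goals exact i.2

variable (x : ℕ → X)

lemma gs_fst (k : ℕ) : (gs 𝕜 x k).1 = x k - ∑ i ∈ Finset.range k,
    (gs 𝕜 x i).2 (x k) • (gs 𝕜 x i).1 := by
  rw [gs, Finset.sum_range fun i => (gs 𝕜 x i).2 (x k) • (gs 𝕜 x i).1]

lemma gs_snd (k : ℕ) : (gs 𝕜 x k).2 = dual1 𝕜 (gs 𝕜 x k).1 - ∑ i ∈ Finset.range k,
    dual1 𝕜 (gs 𝕜 x k).1 (gs 𝕜 x i).1 • (gs 𝕜 x i).2 := by
  rw [gs_fst, Finset.sum_range fun i => (gs 𝕜 x i).2 (x k) • (gs 𝕜 x i).1,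
    Finset.sum_range fun i => _ • (gs 𝕜 x i).2]
  conv_lhs => rw [gs]

lemma gs_mem (k : ℕ) : (gs 𝕜 x k).1 ∈ Submodule.span 𝕜 (x '' Set.Iio (k + 1)) := by
  induction k using Nat.strong_induction_on with
  | _ k ih =>
    rw [gs_fst]
    refine Submodule.sub_mem _ (Submodule.subset_span ⟨k, Nat.lt_succ_self k, rfl⟩) ?_
    refine Submodule.sum_mem _ fun i hi => Submodule.smul_mem _ _ ?_
    rw [Finset.mem_range] at hi
    exact Submodule.span_mono (Set.image_mono (Set.Iio_subset_Iio (by omega))) (ih i hi)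

lemma gs_ne (hx : LinearIndependent 𝕜 x) (k : ℕ) : (gs 𝕜 x k).1 ≠ 0 := by
  intro h
  rw [gs_fst, sub_eq_zero] at h
  have h1 : x k ∈ Submodule.span 𝕜 (x '' Set.Iio k) := by
    rw [h]
    refine Submodule.sum_mem _ fun i hi => Submodule.smul_mem _ _ ?_
    rw [Finset.mem_range] at hi
    exact Submodule.span_mono (Set.image_mono (Set.Iio_subset_Iio (by omega))) (gs_mem 𝕜 x i)
  exact hx.notMem_span_image (s := Set.Iio k) (by simp) h1

lemma gs_bio (hx : LinearIndependent 𝕜 x) (k : ℕ) : (gs 𝕜 x k).2 (gs 𝕜 x k).1 = 1 ∧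
    ∀ i, i < k → (gs 𝕜 x i).2 (gs 𝕜 x k).1 = 0 ∧ (gs 𝕜 x k).2 (gs 𝕜 x i).1 = 0 := by
  induction k using Nat.strong_induction_on with
  | _ k ih =>
    have h0 : ∀ i, i < k → (gs 𝕜 x i).2 (gs 𝕜 x k).1 = 0 := by
      intro i hi
      rw [gs_fst, map_sub, map_sum, Finset.sum_eq_single i]
      · rw [map_smul, (ih i hi).1, smul_eq_mul, mul_one, sub_self]
      · intro j hj hji
        rw [Finset.mem_range] at hj
        rw [map_smul]
        rcases lt_or_gt_of_ne hji with h | h
        · rw [((ih i hi).2 j h).2, smul_zero]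
        · rw [((ih j hj).2 i h).1, smul_zero]
      · intro h
        exact absurd (Finset.mem_range.2 hi) h
    refine ⟨?_, fun i hi => ⟨h0 i hi, ?_⟩⟩
    · rw [gs_snd, sub_apply, sum_apply,
        dual1_apply 𝕜 (gs_ne 𝕜 x hx k), Finset.sum_eq_zero, sub_zero]
      intro i hi
      rw [Finset.mem_range] at hi
      rw [smul_apply, h0 i hi, smul_zero]
    · rw [gs_snd, sub_apply, sum_apply, Finset.sum_eq_single i]
      · rw [smul_apply, (ih i hi).1, smul_eq_mul, mul_one, sub_self]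
      · intro j hj hji
        rw [Finset.mem_range] at hj
        rw [smul_apply]
        rcases lt_or_gt_of_ne hji with h | h
        · rw [((ih i hi).2 j h).1, smul_zero]
        · rw [((ih j hj).2 i h).2, smul_zero]
      · intro h
        exact absurd (Finset.mem_range.2 hi) h

end

open TopologicalSpace in
theorem exists_bio (𝕜 X : Type) [RCLike 𝕜] [NormedAddCommGroup X] [NormedSpace 𝕜 X]
    [SeparableSpace X] (hX : ¬ FiniteDimensional 𝕜 X) :
    ∃ (e : ℕ → X) (f : ℕ → (X →L[𝕜] 𝕜)), (∀ i, f i (e i) = 1) ∧ (∀ i j, i ≠ j → f i (e j) = 0) ∧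
      Dense ((Submodule.span 𝕜 (Set.range e) : Submodule 𝕜 X) : Set X) := by
  obtain ⟨b, hb, hspan, hli⟩ := exists_linearIndependent 𝕜 (Set.range (denseSeq X))
  have hdense : Dense ((Submodule.span 𝕜 b : Submodule 𝕜 X) : Set X) := by
    rw [hspan]
    exact (denseRange_denseSeq X).mono Submodule.subset_span
  have hbc : b.Countable := (Set.countable_range _).mono hb
  have hbi : b.Infinite := by
    intro hfin
    apply hX
    have : FiniteDimensional 𝕜 (Submodule.span 𝕜 b) := FiniteDimensional.span_of_finite 𝕜 hfin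
    have h1 : (Submodule.span 𝕜 b) = ⊤ := by
      rw [Submodule.eq_top_iff']
      intro x
      have h2 : IsClosed ((Submodule.span 𝕜 b : Submodule 𝕜 X) : Set X) :=
        Submodule.closed_of_finiteDimensional _
      have h3 := hdense x
      rwa [h2.closure_eq] at h3
    rw [h1] at this
    exact Module.finite_def.2 (by
      have h4 := (Submodule.fg_top (⊤ : Submodule 𝕜 X)).1 (Module.finite_def.1 this)
      exact h4)
  have := hbc.to_subtype
  have := hbi.to_subtype
  obtain ⟨hden⟩ := nonempty_denumerable b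
  set g : ℕ ≃ b := (Denumerable.eqv b).symm with hg
  set x : ℕ → X := fun n => (g n : X) with hx
  have hxli : LinearIndependent 𝕜 x := hli.comp g g.injective
  have hxr : Set.range x = b := by
    rw [hx, show (fun n => (g n : X)) = Subtype.val ∘ g from rfl, Set.range_comp, g.range_eq_univ,
      Set.image_univ, Subtype.range_coe]
  refine ⟨fun i => (gs 𝕜 x i).1, fun i => (gs 𝕜 x i).2, fun i => (gs_bio 𝕜 x hxli i).1,
    fun i j hij => ?_, ?_⟩
  · rcases lt_or_gt_of_ne hij with h | h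
    · exact ((gs_bio 𝕜 x hxli j).2 i h).1
    · exact ((gs_bio 𝕜 x hxli i).2 j h).2
  · refine hdense.mono ?_
    rw [← hxr]
    refine Submodule.span_le.2 ?_
    rintro _ ⟨k, rfl⟩
    have h1 : x k = (gs 𝕜 x k).1 + ∑ i ∈ Finset.range k,
        (gs 𝕜 x i).2 (x k) • (gs 𝕜 x i).1 := by
      rw [gs_fst 𝕜 x k, sub_add_cancel]
    rw [h1]
    exact Submodule.add_mem _ (Submodule.subset_span ⟨k, rfl⟩)
      (Submodule.sum_mem _ fun i _ => Submodule.smul_mem _ _ (Submodule.subset_span ⟨i, rfl⟩))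

end Pool.Agent.R477.HH
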