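import Mathlib
import Pool.Agent.R477.HH.Alg

/-!
A criterion for hereditary hypercyclicity with corrections in a Banach space which is mapped
continuously into the space, and its verification on chains of a backward shift.
-/

set_option autoImplicit false

open Filter Topology

namespace Pool.Agent.R477.HH

variable {𝕜 X Z : Type} [RCLike 𝕜] [AddCommGroup X] [Module 𝕜 X]
  [NormedAddCommGroup Z] [NormedSpace 𝕜 Z]

/-- The pairs `(x, y)` such that `x` can be moved to `y` by large powers of `T`, with small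
corrections in `Z`. -/
def P (T : X →ₗ[𝕜] X) (ι : Z →ₗ[𝕜] X) (Z₀ : Submodule 𝕜 Z) (M : ℕ) : Submodule 𝕜 (Z × X) where
  carrier := {p | ∃ u : ℕ → Z, Tendsto u atTop (𝓝 0) ∧ (∀ n, u n ∈ Z₀) ∧
    (∀ l, l ≤ M → ∃ v : ℕ → Z, Tendsto v atTop (𝓝 0) ∧ ∀ n, (T ^ l) (ι (u n)) = ι (v n)) ∧
    ∃ v : ℕ → Z, Tendsto v atTop (𝓝 0) ∧
      ∀ᶠ n in atTop, (T ^ n) (ι (p.1 + u n)) = p.2 + ι (v n)}
  zero_mem' := by
    refine ⟨fun _ => 0, tendsto_const_nhds, fun _ => Z₀.zero_mem, fun l _ =>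
      ⟨fun _ => 0, tendsto_const_nhds, fun n => by simp⟩, fun _ => 0, tendsto_const_nhds,
      Eventually.of_forall fun n => by simp⟩
  add_mem' := by
    rintro p p' ⟨u, hu, hu0, hul, v, hv, hvn⟩ ⟨u', hu', hu0', hul', v', hv', hvn'⟩
    refine ⟨fun n => u n + u' n, by simpa using hu.add hu', fun n => Z₀.add_mem (hu0 n) (hu0' n),
      fun l hl => ?_, fun n => v n + v' n, by simpa using hv.add hv', ?_⟩
    · obtain ⟨w, hw, hwn⟩ := hul l hl
      obtain ⟨w', hw', hwn'⟩ := hul' l hl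
      refine ⟨fun n => w n + w' n, by simpa using hw.add hw', fun n => ?_⟩
      rw [map_add, map_add, map_add, hwn, hwn']
    · filter_upwards [hvn, hvn'] with n hn hn'
      have e1 : (p + p').1 + (u n + u' n) = (p.1 + u n) + (p'.1 + u' n) := by
        rw [Prod.fst_add]; abel
      rw [e1, map_add, map_add, hn, hn', Prod.snd_add, map_add]
      abel
  smul_mem' := by
    rintro c p ⟨u, hu, hu0, hul, v, hv, hvn⟩
    refine ⟨fun n => c • u n, by simpa using hu.const_smul c, fun n => Z₀.smul_mem c (hu0 n),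
      fun l hl => ?_, fun n => c • v n, by simpa using hv.const_smul c, ?_⟩
    · obtain ⟨w, hw, hwn⟩ := hul l hl
      refine ⟨fun n => c • w n, by simpa using hw.const_smul c, fun n => ?_⟩
      rw [map_smul, map_smul, map_smul, hwn]
    · filter_upwards [hvn] with n hn
      have e1 : (c • p).1 + c • u n = c • (p.1 + u n) := by
        rw [Prod.smul_fst, smul_add]
      rw [e1, map_smul, map_smul, hn, Prod.smul_snd, map_smul, smul_add]

lemma choose_mul_tendsto {v : ℕ → ℝ} {r q : ℕ} (hq : q ≤ r)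
    (hv : Tendsto (fun n : ℕ => (n : ℝ) ^ r * v n) atTop (𝓝 0)) :
    Tendsto (fun n : ℕ => (n.choose q : ℝ) * v n) atTop (𝓝 0) := by
  refine squeeze_zero_norm' ?_ (tendsto_zero_iff_norm_tendsto_zero.1 hv)
  filter_upwards [eventually_ge_atTop 1] with n hn
  rw [norm_mul, norm_mul, Real.norm_natCast, norm_pow, Real.norm_natCast]
  refine mul_le_mul_of_nonneg_right ?_ (norm_nonneg _)
  have h1 : (n.choose q : ℝ) ≤ (n : ℝ) ^ q := by exact_mod_cast Nat.choose_le_pow n q
  exact h1.trans (pow_le_pow_right₀ (by exact_mod_cast hn) hq)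

section chain

variable (T : X →ₗ[𝕜] X) (β : ℕ → X) (h0 : T (β 0) = β 0)
  (h1 : ∀ j, T (β (j + 1)) = β (j + 1) + β j) (ι : Z →ₗ[𝕜] X) (Z₀ : Submodule 𝕜 Z)
  (ζ : ℕ → Z) (h : ℕ) (hζ : ∀ j, h ≤ j → ι (ζ j) = β j) (hZ₀ : ∀ j, h ≤ j → ζ j ∈ Z₀)

include h0 h1 hζ hZ₀ in
theorem core (M m : ℕ) (hm : M + h ≤ m) (t : ℕ → ℕ → ℝ)
    (ht : ∀ i, i ≤ m → Tendsto (fun n : ℕ => t i n / (n : ℝ) ^ i) atTop (𝓝 0)) :
    ∃ u : ℕ → Z, Tendsto u atTop (𝓝 0) ∧ (∀ n, u n ∈ Z₀) ∧
      (∀ l, l ≤ M → ∃ v : ℕ → Z, Tendsto v atTop (𝓝 0) ∧ ∀ n, (T ^ l) (ι (u n)) = ι (v n)) ∧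
      ∃ v : ℕ → Z, Tendsto v atTop (𝓝 0) ∧
        ∀ᶠ n in atTop, (T ^ n) (ι (u n)) =
          (∑ i ∈ Finset.range (m + 1), ((t i n : ℝ) : 𝕜) • β (m - i)) + ι (v n) := by
  obtain ⟨v, hv, hs⟩ := system m t ht
  have hz : ∀ (g : ℕ → ℕ → ℝ) (ξ : ℕ → Z) (k : ℕ),
      (∀ r ∈ Finset.range k, Tendsto (fun n => g r n) atTop (𝓝 0)) →
      Tendsto (fun n => ∑ r ∈ Finset.range k, ((g r n : ℝ) : 𝕜) • ξ r) atTop (𝓝 0) := by
    intro g ξ k hg
    have h2 : Tendsto (fun n => ∑ r ∈ Finset.range k, ((g r n : ℝ) : 𝕜) • ξ r) atTop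
        (𝓝 (∑ r ∈ Finset.range k, (0 : 𝕜) • ξ r)) := by
      refine tendsto_finsetSum _ fun r hr => ?_
      have h3 := (RCLike.continuous_ofReal (K := 𝕜)).tendsto 0
      rw [RCLike.ofReal_zero] at h3
      exact (h3.comp (hg r hr)).smul_const _
    simpa using h2
  have hv0 : ∀ r ∈ Finset.range (m + 1), Tendsto (fun n => v r n) atTop (𝓝 0) := by
    intro r hr
    rw [Finset.mem_range] at hr
    have h2 := choose_mul_tendsto (q := 0) (Nat.zero_le (r + 1)) (hv r (by omega))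
    simpa using h2
  set u : ℕ → Z := fun n => ∑ r ∈ Finset.range (m + 1), ((v r n : ℝ) : 𝕜) • ζ (m + 1 + r) with hu
  have hιu : ∀ n, ι (u n) = ∑ r ∈ Finset.range (m + 1), ((v r n : ℝ) : 𝕜) • β (m + 1 + r) := by
    intro n
    rw [hu, map_sum]
    refine Finset.sum_congr rfl fun r _ => ?_
    rw [map_smul, hζ _ (by omega)]
  refine ⟨u, hz v _ _ hv0, fun n => ?_, fun l hl => ?_, ?_⟩
  · exact Submodule.sum_mem _ fun r _ => Submodule.smul_mem _ _ (hZ₀ _ (by omega))
  · refine ⟨fun n => ∑ r ∈ Finset.range (m + 1), ((v r n : ℝ) : 𝕜) •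
      ∑ q ∈ Finset.range (m + 1 + r + 1), (l.choose q : 𝕜) • ζ (m + 1 + r - q),
      hz v _ _ hv0, fun n => ?_⟩
    rw [hιu, map_sum, map_sum]
    refine Finset.sum_congr rfl fun r _ => ?_
    rw [map_smul, map_smul, pow_chain T β h0 h1, map_sum]
    congr 1
    refine Finset.sum_congr rfl fun q _ => ?_
    rw [map_smul]
    by_cases hq : q ≤ l
    · rw [hζ _ (by omega)]
    · rw [Nat.choose_eq_zero_of_lt (by omega), Nat.cast_zero, zero_smul, zero_smul]
  · refine ⟨fun n => ∑ r ∈ Finset.range (m + 1), ∑ q ∈ Finset.range (r + 1),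
      (((n.choose q : ℝ) * v r n : ℝ) : 𝕜) • ζ (m + 1 + r - q), ?_, ?_⟩
    · have h2 : Tendsto (fun n => ∑ r ∈ Finset.range (m + 1), ∑ q ∈ Finset.range (r + 1),
          (((n.choose q : ℝ) * v r n : ℝ) : 𝕜) • ζ (m + 1 + r - q)) atTop
          (𝓝 (∑ r ∈ Finset.range (m + 1), (0 : Z))) := by
        refine tendsto_finsetSum _ fun r hr => ?_
        refine hz (fun q n => (n.choose q : ℝ) * v r n) (fun q => ζ (m + 1 + r - q)) (r + 1) ?_
        intro q hq
        rw [Finset.mem_range] at hq hr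
        exact choose_mul_tendsto (by omega) (hv r (by omega))
      simpa using h2
    · filter_upwards [hs] with n hn
      rw [hιu, map_sum, map_sum]
      have e1 : ∀ r ∈ Finset.range (m + 1), (T ^ n) (((v r n : ℝ) : 𝕜) • β (m + 1 + r)) =
          (∑ i ∈ Finset.range (m + 1), (((n.choose (r + 1 + i) : ℝ) * v r n : ℝ) : 𝕜) • β (m - i)) +
          ι (∑ q ∈ Finset.range (r + 1),
            (((n.choose q : ℝ) * v r n : ℝ) : 𝕜) • ζ (m + 1 + r - q)) := by
        intro r _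
        rw [map_smul, pow_chain T β h0 h1, show m + 1 + r + 1 = (r + 1) + (m + 1) by omega,
          Finset.sum_range_add, smul_add, add_comm]
        congr 1
        · rw [Finset.smul_sum]
          refine Finset.sum_congr rfl fun i _ => ?_
          rw [show m + 1 + r - (r + 1 + i) = m - i by omega, smul_smul]
          congr 1
          push_cast
          ring
        · rw [Finset.smul_sum, map_sum]
          refine Finset.sum_congr rfl fun q hq => ?_
          rw [Finset.mem_range] at hq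
          rw [map_smul, hζ _ (by omega), smul_smul]
          congr 1
          push_cast
          ring
      rw [Finset.sum_congr rfl e1, Finset.sum_add_distrib]
      congr 1
      rw [Finset.sum_comm]
      refine Finset.sum_congr rfl fun i hi => ?_
      rw [Finset.mem_range] at hi
      rw [← Finset.sum_smul, ← hn i (by omega)]
      congr 1
      push_cast
      rfl

include h0 h1 hζ hZ₀ in
theorem chain_target (M s : ℕ) : ((0 : Z), β s) ∈ P T ι Z₀ M := by
  set m := M + h + s + 1 with hm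
  obtain ⟨u, hu, hu0, hul, v, hv, hvn⟩ := core T β h0 h1 ι Z₀ ζ h hζ hZ₀ M m (by omega)
    (fun i _ => if i = m - s then 1 else 0) (by
      intro i hi
      by_cases h2 : i = m - s
      · simp only [h2, if_true]
        have h3 : m - s ≠ 0 := by omega
        have h4 := (tendsto_inv_atTop_nhds_zero_nat (𝕜 := ℝ)).pow (m - s)
        rw [zero_pow h3] at h4
        simpa [inv_pow] using h4
      · simp [h2])
  refine ⟨u, hu, hu0, hul, v, hv, ?_⟩
  filter_upwards [hvn] with n hn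
  show (T ^ n) (ι (0 + u n)) = β s + ι (v n)
  rw [zero_add, hn]
  congr 1
  rw [Finset.sum_eq_single (m - s)]
  · rw [if_pos rfl, RCLike.ofReal_one, one_smul, show m - (m - s) = s by omega]
  · intro i _ hi
    rw [if_neg hi, RCLike.ofReal_zero, zero_smul]
  · intro hi
    exact absurd (Finset.mem_range.2 (by omega)) hi

include h0 h1 hζ hZ₀ in
theorem chain_source (M s : ℕ) (hs : h ≤ s) : (ζ s, (0 : X)) ∈ P T ι Z₀ M := by
  set m := M + h + s + 1 with hm
  obtain ⟨u, hu, hu0, hul, v, hv, hvn⟩ := core T β h0 h1 ι Z₀ ζ h hζ hZ₀ M m (by omega)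
    (fun i n => if m - s ≤ i then -(n.choose (i - (m - s)) : ℝ) else 0) (by
      intro i hi
      by_cases h2 : m - s ≤ i
      · simp only [if_pos h2]
        refine squeeze_zero_norm' (a := fun n : ℕ => ((n : ℝ))⁻¹) ?_
          (tendsto_inv_atTop_nhds_zero_nat (𝕜 := ℝ))
        filter_upwards [eventually_ge_atTop 1] with n hn
        have hn1 : (1 : ℝ) ≤ n := by exact_mod_cast hn
        have hn0 : (0 : ℝ) < n := by linarith
        rw [norm_div, norm_neg, Real.norm_natCast, norm_pow, Real.norm_natCast, div_le_iff₀ (by positivity)]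
        have h3 : (n.choose (i - (m - s)) : ℝ) ≤ (n : ℝ) ^ (i - (m - s)) := by
          exact_mod_cast Nat.choose_le_pow n (i - (m - s))
        have h4 : (n : ℝ) ^ (i - (m - s)) ≤ (n : ℝ) ^ (i - 1) :=
          pow_le_pow_right₀ hn1 (by omega)
        have h5 : ((n : ℝ))⁻¹ * (n : ℝ) ^ i = (n : ℝ) ^ (i - 1) := by
          obtain ⟨i', rfl⟩ : ∃ i', i = i' + 1 := ⟨i - 1, by omega⟩
          rw [Nat.add_sub_cancel, pow_succ]
          field_simp
        rw [h5]
        exact h3.trans h4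
      · simp [h2])
  refine ⟨u, hu, hu0, hul, v, hv, ?_⟩
  filter_upwards [hvn] with n hn
  show (T ^ n) (ι (ζ s + u n)) = 0 + ι (v n)
  rw [zero_add, map_add, map_add, hn, hζ s hs, pow_chain T β h0 h1 n s, ← add_assoc]
  have e1 : m + 1 = (m - s) + (s + 1) := by omega
  rw [e1, Finset.sum_range_add _ (m - s) (s + 1)]
  have e2 : ∑ x ∈ Finset.range (m - s), (((if m - s ≤ x then -(n.choose (x - (m - s)) : ℝ) else 0 : ℝ)) : 𝕜) •
      β (m - x) = 0 := by
    refine Finset.sum_eq_zero fun i hi => ?_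
    rw [Finset.mem_range] at hi
    rw [if_neg (by omega), RCLike.ofReal_zero, zero_smul]
  rw [e2, zero_add]
  rw [← Finset.sum_add_distrib, Finset.sum_eq_zero, zero_add]
  intro q hq
  rw [Finset.mem_range] at hq
  rw [if_pos (by omega), Nat.add_sub_cancel_left, show m - (m - s + q) = s - q by omega,
    ← add_smul]
  have e3 : ((n.choose q : ℕ) : 𝕜) + ((-(n.choose q : ℝ) : ℝ) : 𝕜) = 0 := by
    push_cast
    ring
  rw [e3, zero_smul]

end chain

section criterion

variable [TopologicalSpace X] [IsTopologicalAddGroup X] [CompleteSpace Z]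

/-- The criterion. -/
theorem criterion (T : X →ₗ[𝕜] X) (hT : Continuous T) (ι : Z →ₗ[𝕜] X) (hι : Continuous ι)
    (Z₀ : Submodule 𝕜 Z) (D : ℕ → X) (hD : DenseRange D)
    (hP : ∀ M, ∀ x ∈ Z₀, ∀ d, (x, D d) ∈ P T ι Z₀ M) (B : Set ℕ) (hB : B.Infinite) :
    ∃ x : X, Dense ((fun n => (T ^ n) x) '' B) := by
  -- one step
  have step : ∀ (x : Z) (n d : ℕ) (ε : ℝ), x ∈ Z₀ → 0 < ε → ∃ (x' : Z) (n' : ℕ), x' ∈ Z₀ ∧ n' ∈ B ∧
      n < n' ∧ ‖x' - x‖ ≤ ε ∧ (∀ l, l ≤ n → ∃ v : Z, ‖v‖ ≤ ε ∧ (T ^ l) (ι x' - ι x) = ι v) ∧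
      ∃ v : Z, ‖v‖ ≤ ε ∧ (T ^ n') (ι x') = D d + ι v := by
    intro x n d ε hx hε
    obtain ⟨u, hu, hu0, hul, v, hv, hvn⟩ := hP n x hx d
    have hsm : ∀ {w : ℕ → Z}, Tendsto w atTop (𝓝 0) → ∀ᶠ k in atTop, ‖w k‖ ≤ ε := by
      intro w hw
      have h1 := (tendsto_zero_iff_norm_tendsto_zero.1 hw).eventually (gt_mem_nhds hε)
      exact h1.mono fun k hk => le_of_lt hk
    choose! w hw hwn using hul
    have h2 : ∀ᶠ k in atTop, ∀ l ∈ Finset.range (n + 1), ‖w l k‖ ≤ ε := by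
      rw [Filter.eventually_all_finset]
      intro l hl
      rw [Finset.mem_range] at hl
      exact hsm (hw l (by omega))
    have h3 := ((hsm hu).and ((hsm hv).and (h2.and (hvn.and (eventually_gt_atTop n)))))
    have h4 : ∃ᶠ k in atTop, k ∈ B := Nat.frequently_atTop_iff_infinite.2 hB
    obtain ⟨k, hk, hk1, hk2, hk3, hk4, hk5⟩ := (h4.and_eventually h3).exists
    refine ⟨x + u k, k, Z₀.add_mem hx (hu0 k), hk, hk5, ?_, fun l hl => ?_, v k, hk2, hk4⟩
    · rw [add_sub_cancel_left]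
      exact hk1
    · refine ⟨w l k, hk3 l (Finset.mem_range.2 (by omega)), ?_⟩
      rw [map_add, add_sub_cancel_left, hwn l hl]
  -- the sequence
  choose! X' N' hX' hN' hlt hnorm hlow hhit using step
  let st : ℕ → Z × ℕ := fun k => Nat.rec ((0 : Z), 0)
    (fun k s => (X' s.1 s.2 (Nat.unpair k).1 ((1 / 2 : ℝ) ^ k),
      N' s.1 s.2 (Nat.unpair k).1 ((1 / 2 : ℝ) ^ k))) k
  have hst : ∀ k, st (k + 1) = (X' (st k).1 (st k).2 (Nat.unpair k).1 ((1 / 2 : ℝ) ^ k),
      N' (st k).1 (st k).2 (Nat.unpair k).1 ((1 / 2 : ℝ) ^ k)) := fun k => rfl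
  have hε : ∀ k : ℕ, (0 : ℝ) < (1 / 2 : ℝ) ^ k := fun k => by positivity
  have hmem : ∀ k, (st k).1 ∈ Z₀ := by
    intro k
    induction k with
    | zero => exact Z₀.zero_mem
    | succ k ih =>
      rw [hst]
      exact hX' _ _ _ _ ih (hε k)
  have hmono : Monotone fun k => (st k).2 := by
    refine monotone_nat_of_le_succ fun k => ?_
    rw [hst]
    exact (hlt (st k).1 (st k).2 (Nat.unpair k).1 _ (hmem k) (hε k)).le
  have hcau : ∀ k, dist (st k).1 (st (k + 1)).1 ≤ 1 * (1 / 2 : ℝ) ^ k := by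
    intro k
    rw [dist_comm, dist_eq_norm, hst, one_mul]
    exact hnorm (st k).1 (st k).2 (Nat.unpair k).1 _ (hmem k) (hε k)
  obtain ⟨z, hz⟩ := cauchySeq_tendsto_of_complete
    (cauchySeq_of_le_geometric (1 / 2 : ℝ) 1 (by norm_num) hcau)
  refine ⟨ι z, ?_⟩
  -- the images of the later vectors
  have himg : ∀ k j : ℕ, ∃ w : Z, ‖w‖ ≤ 2 * (1 / 2 : ℝ) ^ k - (1 / 2 : ℝ) ^ (k + j) ∧
      (T ^ (st (k + 1)).2) (ι (st (k + 1 + j)).1) = D (Nat.unpair k).1 + ι w := by
    intro k j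
    induction j with
    | zero =>
      obtain ⟨w, hw, hw'⟩ := hhit (st k).1 (st k).2 (Nat.unpair k).1 _ (hmem k) (hε k)
      refine ⟨w, ?_, hw'⟩
      rw [add_zero]
      linarith
    | succ j ih =>
      obtain ⟨w, hw, hw'⟩ := ih
      obtain ⟨w₁, hw₁, hw₁'⟩ := hlow (st (k + 1 + j)).1 (st (k + 1 + j)).2
        (Nat.unpair (k + 1 + j)).1 _ (hmem _) (hε (k + 1 + j)) (st (k + 1)).2
        (hmono (show k + 1 ≤ k + 1 + j from Nat.le_add_right _ _))
      refine ⟨w + w₁, ?_, ?_⟩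
      · refine (norm_add_le _ _).trans ?_
        have e1 : (1 / 2 : ℝ) ^ (k + j) = 2 * (1 / 2 : ℝ) ^ (k + 1 + j) := by
          rw [show k + 1 + j = (k + j) + 1 by ring, pow_succ]; ring
        have e2 : k + (j + 1) = k + 1 + j := by ring
        rw [e2]
        linarith
      · have e3 : ι (st (k + 1 + (j + 1))).1 = ι (st (k + 1 + j)).1 +
            (ι (st (k + 1 + (j + 1))).1 - ι (st (k + 1 + j)).1) := by abel
        rw [e3, map_add, hw']
        have e4 : st (k + 1 + (j + 1)) = st (k + 1 + j + 1) := rfl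
        rw [e4, hst (k + 1 + j)]
        rw [hw₁', map_add]
        abel
  have hTn : ∀ n : ℕ, Continuous fun x : X => (T ^ n) x := by
    intro n
    induction n with
    | zero =>
      simp only [pow_zero, Module.End.one_apply]
      exact continuous_id
    | succ n ih =>
      rw [pow_succ]
      exact ih.comp hT
  rw [dense_iff_inter_open]
  rintro U hU ⟨y, hy⟩
  obtain ⟨V, ⟨hV, hVc⟩, hVU⟩ := (closed_nhds_basis y).mem_iff.1 (hU.mem_nhds hy)
  obtain ⟨i, hi⟩ := hD.exists_mem_open isOpen_interior ⟨y, mem_interior_iff_mem_nhds.2 hV⟩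
  have h1 : Tendsto (fun w : Z => D i + ι w) (𝓝 0) (𝓝 (D i)) := by
    have : Continuous fun w : Z => D i + ι w := continuous_const.add hι
    have h2 := this.tendsto 0
    rwa [map_zero, add_zero] at h2
  obtain ⟨δ, hδ, hδV⟩ := Metric.mem_nhds_iff.1 (h1 (mem_interior_iff_mem_nhds.1 hi))
  obtain ⟨K, hK⟩ : ∃ K : ℕ, 2 * (1 / 2 : ℝ) ^ K < δ := by
    obtain ⟨K, hK⟩ := exists_pow_lt_of_lt_one (show (0 : ℝ) < δ / 2 by positivity)
      (show (1 / 2 : ℝ) < 1 by norm_num)
    exact ⟨K, by linarith⟩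
  set k := Nat.pair i K with hk
  have hkK : K ≤ k := Nat.right_le_pair i K
  have hk1 : (Nat.unpair k).1 = i := by rw [hk, Nat.unpair_pair]
  refine ⟨(T ^ (st (k + 1)).2) (ι z), hVU ?_, ⟨(st (k + 1)).2, ?_, rfl⟩⟩
  · have h3 : Tendsto (fun j => (T ^ (st (k + 1)).2) (ι (st (k + 1 + j)).1)) atTop
        (𝓝 ((T ^ (st (k + 1)).2) (ι z))) := by
      have h4 : Tendsto (fun j => (st (k + 1 + j)).1) atTop (𝓝 z) := by
        have h5 := hz.comp (tendsto_add_atTop_nat (k + 1))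
        refine h5.congr fun j => ?_
        show (st (j + (k + 1))).1 = (st (k + 1 + j)).1
        rw [add_comm]
      exact ((((hTn _).comp hι).tendsto z).comp h4)
    refine hVc.mem_of_tendsto h3 (Eventually.of_forall fun j => ?_)
    obtain ⟨w, hw, hw'⟩ := himg k j
    rw [hw', hk1]
    refine hδV ?_
    rw [mem_ball_zero_iff]
    have h5 : (1 / 2 : ℝ) ^ k ≤ (1 / 2 : ℝ) ^ K :=
      pow_le_pow_of_le_one (by norm_num) (by norm_num) hkK
    have h6 : (0 : ℝ) < (1 / 2 : ℝ) ^ (k + j) := by positivity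
    linarith
  · exact hN' (st k).1 (st k).2 (Nat.unpair k).1 _ (hmem k) (hε k)

end criterion

end Pool.Agent.R477.HH
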