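import Mathlib

/-!
The locally convex direct sum of a sequence of normed spaces.
-/

set_option autoImplicit false

open Filter Topology

namespace Pool.Agent.R477.HH

/-- `t` is a locally convex vector space topology on the `𝕜`-vector space `E` -/
def IsLCTopology (𝕜 E : Type) [RCLike 𝕜] [AddCommGroup E] [Module 𝕜 E]
    (t : TopologicalSpace E) : Prop :=
  letI : Module ℝ E := Module.compHom E (algebraMap ℝ 𝕜)
  IsTopologicalAddGroup E ∧ ContinuousSMul 𝕜 E ∧ LocallyConvexSpace ℝ E

section general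

variable {𝕜 E F : Type} [RCLike 𝕜] [AddCommGroup E] [Module 𝕜 E] [AddCommGroup F] [Module 𝕜 F]

theorem isLC_sInf {S : Set (TopologicalSpace E)} (h : ∀ t ∈ S, IsLCTopology 𝕜 E t) :
    IsLCTopology 𝕜 E (sInf S) := by
  let _ : Module ℝ E := Module.compHom E (algebraMap ℝ 𝕜)
  exact ⟨topologicalAddGroup_sInf fun t ht => (h t ht).1,
    continuousSMul_sInf fun t ht => (h t ht).2.1, LocallyConvexSpace.sInf fun t ht => (h t ht).2.2⟩

theorem isLC_iInf {ι : Type} {t : ι → TopologicalSpace E} (h : ∀ i, IsLCTopology 𝕜 E (t i)) :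
    IsLCTopology 𝕜 E (⨅ i, t i) := by
  refine isLC_sInf ?_
  rintro _ ⟨i, rfl⟩
  exact h i

theorem isLC_inf {t s : TopologicalSpace E} (h : IsLCTopology 𝕜 E t) (h' : IsLCTopology 𝕜 E s) :
    IsLCTopology 𝕜 E (t ⊓ s) := by
  rw [← sInf_pair]
  refine isLC_sInf ?_
  rintro _ (rfl | rfl)
  · exact h
  · exact h'

theorem isLC_induced (f : E →ₗ[𝕜] F) {t : TopologicalSpace F} (h : IsLCTopology 𝕜 F t) :
    IsLCTopology 𝕜 E (t.induced f) := by
  let _ : Module ℝ E := Module.compHom E (algebraMap ℝ 𝕜)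
  let _ : Module ℝ F := Module.compHom F (algebraMap ℝ 𝕜)
  obtain ⟨h1, h2, h3⟩ := h
  let g : E →ₗ[ℝ] F :=
    { toFun := f
      map_add' := f.map_add
      map_smul' := fun c x => f.map_smul (algebraMap ℝ 𝕜 c) x }
  exact ⟨topologicalAddGroup_induced f, continuousSMul_induced f, LocallyConvexSpace.induced g⟩

theorem isLC_norm (𝕜 E : Type) [RCLike 𝕜] [NormedAddCommGroup E] [NormedSpace 𝕜 E] :
    IsLCTopology 𝕜 E inferInstance := by
  let _ : NormedSpace ℝ E :=
    { Module.compHom E (algebraMap ℝ 𝕜) with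
      norm_smul_le := fun c x => by
        show ‖(algebraMap ℝ 𝕜 c) • x‖ ≤ _
        rw [norm_smul, norm_algebraMap'] }
  exact ⟨inferInstance, inferInstance, NormedSpace.toLocallyConvexSpace⟩

end general

section sum

variable (𝕜 : Type) (X : ℕ → Type) [RCLike 𝕜] [∀ n, NormedAddCommGroup (X n)]
  [∀ n, NormedSpace 𝕜 (X n)]

/-- the locally convex vector space topologies on the algebraic direct sum of the `X n` whose
restriction to each `X n` is the norm topology -/
def SumTopologies : Set (TopologicalSpace (Π₀ n, X n)) :=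
  {t | IsLCTopology 𝕜 (Π₀ n, X n) t ∧
    ∀ n, t.induced (fun x : X n => (DFinsupp.single n x : Π₀ n, X n)) =
      (inferInstance : TopologicalSpace (X n))}

/-- the topology of the locally convex direct sum -/
@[instance_reducible] def sumTopology : TopologicalSpace (Π₀ n, X n) := sInf (SumTopologies 𝕜 X)

theorem nonempty : (SumTopologies 𝕜 X).Nonempty := by
  refine ⟨⨅ n, TopologicalSpace.induced (fun x : Π₀ n, X n => x n) inferInstance,
    isLC_iInf fun n => isLC_induced (DFinsupp.lapply n : (Π₀ n, X n) →ₗ[𝕜] X n)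
      (isLC_norm 𝕜 (X n)), fun k => ?_⟩
  rw [induced_iInf]
  refine le_antisymm ?_ ?_
  · refine (iInf_le _ k).trans ?_
    rw [induced_compose]
    have : ((fun x : Π₀ n, X n => x k) ∘ fun x : X k => (DFinsupp.single k x : Π₀ n, X n)) = id := by
      funext x
      simp
    rw [this, induced_id]
  · refine le_iInf fun n => ?_
    rw [induced_compose, ← continuous_iff_le_induced]
    by_cases h : n = k
    · subst h
      have : ((fun x : Π₀ n, X n => x n) ∘ fun x : X n => (DFinsupp.single n x : Π₀ n, X n)) = id := by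
        funext x
        simp
      rw [this]
      exact continuous_id
    · have : ((fun x : Π₀ n, X n => x n) ∘ fun x : X k => (DFinsupp.single k x : Π₀ n, X n)) =
          fun _ => 0 := by
        funext x
        simp [DFinsupp.single_eq_of_ne h]
      rw [this]
      exact continuous_const

theorem isLeast : IsLeast (SumTopologies 𝕜 X) (sumTopology 𝕜 X) := by
  refine ⟨⟨isLC_sInf fun t ht => ht.1, fun n => ?_⟩, fun t ht => sInf_le ht⟩
  unfold sumTopology
  rw [induced_sInf]
  have : TopologicalSpace.induced (fun x : X n => (DFinsupp.single n x : Π₀ n, X n)) ''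
      SumTopologies 𝕜 X = {(inferInstance : TopologicalSpace (X n))} := by
    ext s
    constructor
    · rintro ⟨t, ht, rfl⟩
      exact ht.2 n
    · rintro rfl
      obtain ⟨t, ht⟩ := nonempty 𝕜 X
      exact ⟨t, ht, ht.2 n⟩
  rw [this, sInf_singleton]

theorem continuous_single (n : ℕ) : @Continuous _ _ inferInstance (sumTopology 𝕜 X)
    (fun x : X n => (DFinsupp.single n x : Π₀ n, X n)) := by
  rw [continuous_iff_le_induced]
  exact ((isLeast 𝕜 X).1.2 n).ge

theorem continuous_of (T : (Π₀ n, X n) →ₗ[𝕜] (Π₀ n, X n))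
    (h : ∀ n, @Continuous _ _ inferInstance (sumTopology 𝕜 X)
      (fun x : X n => T (DFinsupp.single n x : Π₀ n, X n))) :
    @Continuous _ _ (sumTopology 𝕜 X) (sumTopology 𝕜 X) T := by
  rw [continuous_iff_le_induced]
  have h1 : sumTopology 𝕜 X ⊓ (sumTopology 𝕜 X).induced T ∈ SumTopologies 𝕜 X := by
    refine ⟨isLC_inf (isLeast 𝕜 X).1.1 (isLC_induced T (isLeast 𝕜 X).1.1), fun n => ?_⟩
    rw [induced_inf, (isLeast 𝕜 X).1.2 n, inf_eq_left, induced_compose,
      ← continuous_iff_le_induced]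
    exact h n
  exact ((isLeast 𝕜 X).2 h1).trans inf_le_right

theorem topAddGroup : @IsTopologicalAddGroup (Π₀ n, X n) (sumTopology 𝕜 X) _ :=
  (isLeast 𝕜 X).1.1.1

theorem contSMul : @ContinuousSMul 𝕜 (Π₀ n, X n) _ _ (sumTopology 𝕜 X) :=
  (isLeast 𝕜 X).1.1.2.1

end sum

end Pool.Agent.R477.HH
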