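import Mathlib
import Pool.Agent.R477.HH.Crit
import Pool.Agent.R477.HH.Bio
import Pool.Agent.R477.HH.Top

/-!
The operator on the locally convex direct sum.
-/

set_option autoImplicit false

open Filter Topology

namespace Pool.Agent.R477.HH

/-- A sequence in the span of `b` with dense range. -/
theorem exists_dense {𝕜 E : Type} [RCLike 𝕜] [AddCommGroup E] [Module 𝕜 E] [TopologicalSpace E]
    [IsTopologicalAddGroup E] [ContinuousSMul 𝕜 E] (b : ℕ → E)
    (hb : Dense ((Submodule.span 𝕜 (Set.range b) : Submodule 𝕜 E) : Set E)) :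
    ∃ D : ℕ → E, DenseRange D ∧ ∀ n, D n ∈ Submodule.span 𝕜 (Set.range b) := by
  let φ : (m : ℕ) → (Fin m → 𝕜) → E := fun m a => ∑ r : Fin m, a r • b r
  have hφ : ∀ m, Continuous (φ m) := fun m =>
    continuous_finsetSum _ fun r _ => (continuous_apply r).smul continuous_const
  let D : ℕ → E := fun n => φ (Nat.unpair n).1
    (TopologicalSpace.denseSeq (Fin (Nat.unpair n).1 → 𝕜) (Nat.unpair n).2)
  refine ⟨D, ?_, fun n => ?_⟩
  · have h1 : ∀ m a, φ m a ∈ closure (Set.range D) := by
      intro m a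
      have h2 : a ∈ closure (Set.range (TopologicalSpace.denseSeq (Fin m → 𝕜))) :=
        TopologicalSpace.denseRange_denseSeq _ a
      have h3 := image_closure_subset_closure_image (hφ m) ⟨a, h2, rfl⟩
      refine closure_mono ?_ h3
      rintro _ ⟨_, ⟨i, rfl⟩, rfl⟩
      refine ⟨Nat.pair m i, ?_⟩
      show φ (Nat.unpair (Nat.pair m i)).1 (TopologicalSpace.denseSeq
        (Fin (Nat.unpair (Nat.pair m i)).1 → 𝕜) (Nat.unpair (Nat.pair m i)).2) = _
      rw [Nat.unpair_pair]
    have h4 : ((Submodule.span 𝕜 (Set.range b) : Submodule 𝕜 E) : Set E) ⊆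
        closure (Set.range D) := by
      intro x hx
      rw [SetLike.mem_coe, Finsupp.mem_span_range_iff_exists_finsupp] at hx
      obtain ⟨c, rfl⟩ := hx
      obtain ⟨m, hm⟩ : ∃ m, c.support ⊆ Finset.range m :=
        ⟨c.support.sup id + 1, fun i hi => Finset.mem_range.2 (Nat.lt_succ_of_le
          (Finset.le_sup (f := id) hi))⟩
      have h5 : (c.sum fun i a => a • b i) = φ m fun r => c r := by
        show _ = ∑ r : Fin m, c r • b r
        rw [Finsupp.sum_of_support_subset c hm (fun i a => a • b i) (fun i _ => zero_smul _ _),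
          Finset.sum_range]
      rw [h5]
      exact h1 _ _
    intro x
    have h6 := hb x
    exact closure_minimal h4 isClosed_closure h6
  · exact Submodule.sum_mem _ fun r _ => Submodule.smul_mem _ _ (Submodule.subset_span ⟨r, rfl⟩)

/-- the summand in which the basis vector number `p.2` of the chain number `p.1` lies -/
def lev (p : ℕ × ℕ) : ℕ := (Nat.unpair p.1).1 - p.2

/-- the index set of the basis of the summand number `k` -/
abbrev J (k : ℕ) : Type := {p : ℕ × ℕ // lev p = k}

instance (k : ℕ) : Infinite (J k) :=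
  Infinite.of_injective (fun i : ℕ => (⟨(Nat.pair k i, 0), by simp [lev]⟩ : J k)) (by
    intro i j h
    have h1 : Nat.pair k i = Nat.pair k j := congrArg (fun p : J k => p.1.1) h
    exact (Nat.pair_eq_pair.1 h1).2)

section op

variable {𝕜 : Type} {X : ℕ → Type} [RCLike 𝕜] [∀ n, NormedAddCommGroup (X n)]
  [∀ n, NormedSpace 𝕜 (X n)] (e : ∀ k, J k → X k) (f : ∀ k, J k → (X k →L[𝕜] 𝕜))

/-- the basis vectors -/
noncomputable def bv (p : ℕ × ℕ) : Π₀ n, X n := DFinsupp.single (lev p) (e (lev p) ⟨p, rfl⟩)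

/-- the predecessor in the chain -/
def pred (p : ℕ × ℕ) : ℕ × ℕ := (p.1, p.2 - 1)

/-- the weights -/
noncomputable def wt (p : ℕ × ℕ) : ℝ := (1 / 2 : ℝ) ^ (Encodable.encode p) /
  (1 + ‖f (lev p) ⟨p, rfl⟩‖ * ‖e (lev (pred p)) ⟨pred p, rfl⟩‖)

lemma wt_pos (p : ℕ × ℕ) : 0 < wt e f p := by
  unfold wt
  positivity

/-- the image of the basis vectors -/
noncomputable def im (p : ℕ × ℕ) : Π₀ n, X n :=
  if p.2 = 0 then 0 else ((wt e f p : ℝ) : 𝕜) • bv e (pred p)

lemma norm_single_le (l m : ℕ) (z : X l) : ‖(DFinsupp.single l z : Π₀ n, X n) m‖ ≤ ‖z‖ := by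
  by_cases h : m = l
  · subst h
    rw [DFinsupp.single_eq_same]
  · rw [DFinsupp.single_eq_of_ne h, norm_zero]
    exact norm_nonneg _

lemma norm_im_le (k m : ℕ) (p : J k) :
    ‖f k p‖ * ‖(im e f p.1) m‖ ≤ (1 / 2 : ℝ) ^ (Encodable.encode p.1) := by
  obtain ⟨p, rfl⟩ := p
  show ‖f (lev p) ⟨p, rfl⟩‖ * ‖(im e f p) m‖ ≤ _
  unfold im
  split_ifs with h
  · rw [DFinsupp.zero_apply, norm_zero, mul_zero]
    positivity
  · rw [DFinsupp.smul_apply, norm_smul, RCLike.norm_ofReal, abs_of_pos (wt_pos e f p)]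
    have h1 : ‖(bv e (pred p)) m‖ ≤ ‖e (lev (pred p)) ⟨pred p, rfl⟩‖ := norm_single_le _ _ _
    unfold wt
    set a := ‖f (lev p) ⟨p, rfl⟩‖ with ha
    set c := ‖e (lev (pred p)) ⟨pred p, rfl⟩‖ with hc
    set d := ‖(bv e (pred p)) m‖ with hd
    have ha0 : 0 ≤ a := norm_nonneg _
    have hc0 : 0 ≤ c := norm_nonneg _
    have hd0 : 0 ≤ d := norm_nonneg _
    have h2 : 0 < 1 + a * c := by positivity
    rw [show a * ((1 / 2 : ℝ) ^ (Encodable.encode p) / (1 + a * c) * d) =
      (1 / 2 : ℝ) ^ (Encodable.encode p) * ((a * d) / (1 + a * c)) by ring]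
    refine mul_le_of_le_one_right (by positivity) ?_
    rw [div_le_one h2]
    have h3 : a * d ≤ a * c := mul_le_mul_of_nonneg_left h1 ha0
    linarith

lemma summable_C [∀ n, CompleteSpace (X n)] (k m : ℕ) :
    Summable fun p : J k => (f k p).smulRight ((im e f p.1) m) := by
  refine Summable.of_norm_bounded (g := fun p : J k => (1 / 2 : ℝ) ^ (Encodable.encode p.1)) ?_ ?_
  · have h1 : Function.Injective fun p : J k => Encodable.encode p.1 :=
      Encodable.encode_injective.comp Subtype.val_injective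
    exact summable_geometric_two.comp_injective h1
  · intro p
    rw [ContinuousLinearMap.norm_smulRight_apply]
    exact norm_im_le e f k m p

/-- the components of the nilpotent part -/
noncomputable def C (k m : ℕ) : X k →L[𝕜] X m := ∑' p : J k, (f k p).smulRight ((im e f p.1) m)

variable (h1 : ∀ k p, f k p (e k p) = 1) (h2 : ∀ k p q, p ≠ q → f k p (e k q) = 0)

include h1 h2 in
lemma C_apply [∀ n, CompleteSpace (X n)] (k m : ℕ) (p : J k) :
    C e f k m (e k p) = (im e f p.1) m := by
  unfold C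
  have h3 := (ContinuousLinearMap.apply 𝕜 (X m) (e k p)).map_tsum (summable_C e f k m)
  have h4 : (∑' p : J k, (f k p).smulRight ((im e f p.1) m)) (e k p) =
      ∑' q : J k, ((f k q).smulRight ((im e f q.1) m)) (e k p) := h3
  rw [h4, tsum_eq_single p]
  · rw [ContinuousLinearMap.smulRight_apply, h1, one_smul]
  · intro q hq
    rw [ContinuousLinearMap.smulRight_apply, h2 k q p hq, zero_smul]

/-- the nilpotent part on the summand number `k` -/
noncomputable def L (k : ℕ) : X k →ₗ[𝕜] (Π₀ n, X n) :=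
  (DFinsupp.lsingle k).comp (C e f k k).toLinearMap +
    (DFinsupp.lsingle (k + 1)).comp (C e f k (k + 1)).toLinearMap

lemma L_apply (k : ℕ) (x : X k) : L e f k x = DFinsupp.single k (C e f k k x) +
    DFinsupp.single (k + 1) (C e f k (k + 1) x) := rfl

/-- the operator `1 + N` -/
noncomputable def T : (Π₀ n, X n) →ₗ[𝕜] (Π₀ n, X n) :=
  LinearMap.id + DFinsupp.lsum ℕ (fun k => L e f k)

lemma T_single (k : ℕ) (x : X k) : T e f (DFinsupp.single k x) = DFinsupp.single k x +
    (DFinsupp.single k (C e f k k x) + DFinsupp.single (k + 1) (C e f k (k + 1) x)) := by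
  unfold T
  rw [LinearMap.add_apply, LinearMap.id_apply, DFinsupp.lsum_single, L_apply]

lemma single_add_single (l k : ℕ) (z : X l) (h : l = k ∨ l = k + 1) :
    (DFinsupp.single k ((DFinsupp.single l z : Π₀ n, X n) k) : Π₀ n, X n) +
      DFinsupp.single (k + 1) ((DFinsupp.single l z : Π₀ n, X n) (k + 1)) =
      DFinsupp.single l z := by
  rcases h with rfl | rfl
  · rw [DFinsupp.single_eq_same, DFinsupp.single_eq_of_ne (by omega), DFinsupp.single_zero,
      add_zero]
  · rw [DFinsupp.single_eq_same, DFinsupp.single_eq_of_ne (by omega), DFinsupp.single_zero,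
      zero_add]

include h1 h2 in
lemma T_bv [∀ n, CompleteSpace (X n)] (p : ℕ × ℕ) : T e f (bv e p) = bv e p + im e f p := by
  have e0 : T e f (bv e p) = bv e p + (DFinsupp.single (lev p) ((im e f p) (lev p)) +
      DFinsupp.single (lev p + 1) ((im e f p) (lev p + 1))) := by
    show T e f (DFinsupp.single (lev p) (e (lev p) ⟨p, rfl⟩)) = _
    rw [T_single, C_apply e f h1 h2, C_apply e f h1 h2]
    rfl
  rw [e0]
  congr 1
  by_cases h : p.2 = 0
  · have : im e f p = 0 := by unfold im; rw [if_pos h]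
    rw [this]
    simp
  · have : im e f p = DFinsupp.single (lev (pred p))
        (((wt e f p : ℝ) : 𝕜) • e (lev (pred p)) ⟨pred p, rfl⟩) := by
      unfold im
      rw [if_neg h, DFinsupp.single_smul]
      rfl
    rw [this]
    refine single_add_single _ _ _ ?_
    unfold lev pred
    simp only
    omega

end op

end Pool.Agent.R477.HH
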